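import Pool.Agent.helper81.NW.Spec
import Pool.Agent.helper99.NR.GCN

set_option autoImplicit false

namespace Pool.Agent.helper81.NW

open Pool.Agent.helper84.NR
open scoped Classical
open Finset

theorem GCW_sum {V F : Type} [Fintype V] [Fintype F] (M : PMap V F) (x y : V) (hN : NF M x y)
    (hEDG : EDG_stmt) (hDEG : DEG_stmt) :
    ∑ B ∈ univ.filter (fun B => OnV M.toCyc B y), (shV M x B).card =
      (univ.filter (fun v => shv M x y v)).card + (sp M x y).card := by
  obtain ⟨e1, e2⟩ := hEDG V F M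
  obtain ⟨d1, d2, -⟩ := hDEG V F M y
  have h1 : ∀ B, (shV M x B).card = ∑ v : V, if (OnV M.toCyc B v ∧ ∃ A, OnV M.toCyc A x ∧ OnV M.toCyc A v) then 1 else 0 := by
    intro B
    rw [shV, card_filter]
  rw [Finset.sum_congr rfl (fun B _ => h1 B), Finset.sum_comm, sp, card_filter, card_filter, ← Finset.sum_add_distrib]
  refine Finset.sum_congr rfl (fun v _ => ?_)
  by_cases hX : ∃ A, OnV M.toCyc A x ∧ OnV M.toCyc A v
  · have hvy : v ≠ y := by
      rintro rfl
      obtain ⟨A, hA1, hA2⟩ := hX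
      exact hN.ne A ⟨hA1, hA2⟩
    have h2 : ∑ B ∈ univ.filter (fun B => OnV M.toCyc B y),
        (if (OnV M.toCyc B v ∧ ∃ A, OnV M.toCyc A x ∧ OnV M.toCyc A v) then 1 else 0) =
        (univ.filter (fun B => OnV M.toCyc B y ∧ OnV M.toCyc B v)).card := by
      rw [← Finset.card_filter, Finset.filter_filter]
      congr 1
      ext B
      simp only [mem_filter, mem_univ, true_and]
      exact ⟨fun h => ⟨h.1, h.2.1⟩, fun h => ⟨h.1, h.2, hX⟩⟩
    rw [h2]
    by_cases hadj : Adj M.toCyc y v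
    · rw [d2 v hadj]
      have h3 : shv M x y v := by
        refine ⟨hX, ?_⟩
        obtain ⟨B, hB⟩ := hadj
        obtain ⟨b1, b2, -⟩ := e1 B _ _ hB
        exact ⟨B, b1, b2⟩
      rw [if_pos h3, if_pos ⟨hadj, hX⟩]
    · rw [if_neg (fun h : Adj M.toCyc y v ∧ ∃ A, OnV M.toCyc A x ∧ OnV M.toCyc A v => hadj h.1)]
      by_cases hs : ∃ B, OnV M.toCyc B y ∧ OnV M.toCyc B v
      · have h3 : shv M x y v := ⟨hX, hs⟩
        rw [if_pos h3]
        obtain ⟨B, hB1, hB2⟩ := hs
        rw [Nat.add_zero, Finset.card_eq_one]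
        refine ⟨B, ?_⟩
        ext B'
        simp only [mem_filter, mem_univ, true_and, mem_singleton]
        constructor
        · rintro ⟨c1, c2⟩
          exact d1 v B' B hvy hadj c1 c2 hB1 hB2
        · rintro rfl
          exact ⟨hB1, hB2⟩
      · have h3 : ¬ shv M x y v := fun h => hs h.2
        rw [if_neg h3, Nat.add_zero, Finset.card_eq_zero]
        ext B'
        simp only [mem_filter, mem_univ, true_and, notMem_empty, iff_false]
        rintro ⟨c1, c2⟩
        exact hs ⟨B', c1, c2⟩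
  · have h3 : ¬ shv M x y v := fun h => hX h.1
    rw [if_neg h3, if_neg (fun h : Adj M.toCyc y v ∧ ∃ A, OnV M.toCyc A x ∧ OnV M.toCyc A v => hX h.2)]
    refine Finset.sum_eq_zero (fun B _ => ?_)
    exact if_neg (fun h : OnV M.toCyc B v ∧ ∃ A, OnV M.toCyc A x ∧ OnV M.toCyc A v => hX h.2)

theorem GCW_sumE {V F : Type} [Fintype V] [Fintype F] (M : PMap V F) (x y : V) (hN : NF M x y) :
    ∑ B ∈ univ.filter (fun B => OnV M.toCyc B y), (shE M x B).card =
      (univ.filter (fun e => she M x y e)).card := by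
  have h1 : ∀ B, (shE M x B).card = ∑ e : Sym2 V, if (OnE M.toCyc B e ∧ ∃ A, OnV M.toCyc A x ∧ OnE M.toCyc A e) then 1 else 0 := by
    intro B
    rw [shE, card_filter]
  rw [Finset.sum_congr rfl (fun B _ => h1 B), Finset.sum_comm, card_filter]
  refine Finset.sum_congr rfl (fun e _ => ?_)
  by_cases hX : ∃ A, OnV M.toCyc A x ∧ OnE M.toCyc A e
  · have h2 : ∑ B ∈ univ.filter (fun B => OnV M.toCyc B y),
        (if (OnE M.toCyc B e ∧ ∃ A, OnV M.toCyc A x ∧ OnE M.toCyc A e) then 1 else 0) =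
        (univ.filter (fun B => OnV M.toCyc B y ∧ OnE M.toCyc B e)).card := by
      rw [← Finset.card_filter, Finset.filter_filter]
      congr 1
      ext B
      simp only [mem_filter, mem_univ, true_and]
      exact ⟨fun h => ⟨h.1, h.2.1⟩, fun h => ⟨h.1, h.2, hX⟩⟩
    rw [h2]
    by_cases hs : ∃ B, OnV M.toCyc B y ∧ OnE M.toCyc B e
    · have h3 : she M x y e := ⟨hX, hs⟩
      rw [if_pos h3]
      obtain ⟨B, hB1, hB2⟩ := hs
      obtain ⟨A, hA1, hA2⟩ := hX
      obtain ⟨g, hg1, hg2, hg3⟩ := M.two e A hA2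
      have hother : ∀ B', OnV M.toCyc B' y → OnE M.toCyc B' e → B' = g := by
        intro B' c1 c2
        rcases hg3 B' c2 with h | h
        · exfalso
          rw [h] at c1
          exact hN.ne A ⟨hA1, c1⟩
        · exact h
      rw [Finset.card_eq_one]
      refine ⟨B, ?_⟩
      ext B'
      simp only [mem_filter, mem_univ, true_and, mem_singleton]
      constructor
      · rintro ⟨c1, c2⟩
        rw [hother B' c1 c2, hother B hB1 hB2]
      · rintro rfl
        exact ⟨hB1, hB2⟩
    · have h3 : ¬ she M x y e := fun h => hs h.2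
      rw [if_neg h3, Finset.card_eq_zero]
      ext B'
      simp only [mem_filter, mem_univ, true_and, notMem_empty, iff_false]
      rintro ⟨c1, c2⟩
      exact hs ⟨B', c1, c2⟩
  · have h3 : ¬ she M x y e := fun h => hX h.1
    rw [if_neg h3]
    refine Finset.sum_eq_zero (fun B _ => ?_)
    exact if_neg (fun h : OnE M.toCyc B e ∧ ∃ A, OnV M.toCyc A x ∧ OnE M.toCyc A e => hX h.2)

theorem GCW (hIDX : IDX_stmt) (hEDG : EDG_stmt) (hDEG : DEG_stmt) (hWW0 : WW0_stmt) : GCW_stmt := by
  intro V F _ _ M x y hN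
  have hs1 := GCW_sum M x y hN hEDG hDEG
  have hs2 := GCW_sumE M x y hN
  have hsub : FA M y x ⊆ univ.filter (fun B => OnV M.toCyc B y) := by
    intro B hB
    rw [FA, mem_filter] at hB
    exact mem_filter.2 ⟨mem_univ _, hB.2.1⟩
  have hz1 : ∑ B ∈ FA M y x, (shV M x B).card = ∑ B ∈ univ.filter (fun B => OnV M.toCyc B y), (shV M x B).card := by
    apply Finset.sum_subset hsub
    intro B hB hB'
    rw [Finset.card_eq_zero]
    ext v
    simp only [shV, mem_filter, mem_univ, true_and, notMem_empty, iff_false]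
    rintro ⟨c1, A, c2, c3⟩
    apply hB'
    rw [FA, mem_filter]
    exact ⟨mem_univ _, (mem_filter.1 hB).2, A, v, c2, c1, c3⟩
  have hz2 : ∑ B ∈ FA M y x, (shE M x B).card = ∑ B ∈ univ.filter (fun B => OnV M.toCyc B y), (shE M x B).card := by
    apply Finset.sum_subset hsub
    intro B hB hB'
    rw [Finset.card_eq_zero]
    ext e
    simp only [shE, mem_filter, mem_univ, true_and, notMem_empty, iff_false]
    rintro ⟨⟨k, c1⟩, A, c2, c3⟩
    apply hB'
    rw [FA, mem_filter]
    obtain ⟨e1, -⟩ := hEDG V F M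
    refine ⟨mem_univ _, (mem_filter.1 hB).2, A, M.bd B k, c2, ⟨k, rfl⟩, ?_⟩
    rw [c1] at c3
    exact (e1 A _ _ c3).1
  rw [gps, gaps, Finset.card_sigma, Nat.cast_sum]
  have hone : ∀ B ∈ FA M y x, ((((range (M.len B)).filter (fun k => gp M x y B k)).card : ℕ) : ℤ) =
      ((shV M x B).card : ℤ) - (shE M x B).card - 1 := by
    intro B hB
    rw [FA, mem_filter] at hB
    obtain ⟨-, hBy, A, v, hAx, hBv, hAv⟩ := hB
    refine GCN_one hIDX hEDG hWW0 M x y B hN.ne hBy ?_
    obtain ⟨-, i2, -⟩ := hIDX V F M.toCyc B (st M y B)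
    obtain ⟨a, ha, hav⟩ := i2 v hBv
    refine ⟨a, ?_, ha, A, hAx, ?_⟩
    · rcases Nat.eq_zero_or_pos a with h0 | h0
      · exfalso
        subst h0
        have hw := (hWW0 V F M y B hBy).1
        have hw' : M.bd B (st M y B + 0) = y := hw
        rw [hw'] at hav
        rw [← hav] at hAv
        exact hN.ne A ⟨hAx, hAv⟩
      · exact h0
    · have : ww M y B a = v := hav
      rw [this]
      exact hAv
  rw [Finset.sum_congr rfl hone, Finset.sum_sub_distrib, Finset.sum_sub_distrib, ← Nat.cast_sum, ← Nat.cast_sum, hz1, hz2, hs1, hs2]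
  simp only [sum_const, nsmul_eq_mul, mul_one]
  push_cast
  ring

end Pool.Agent.helper81.NW
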